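import Pool.Agent.Helper68.DS.Goals

set_option autoImplicit false

/-!
# Packet BLOCK of MP_52cd29_ag: the number of windows of a block design selecting a label
-/

namespace Pool.Agent.Helper19.DS

open Pool.Agent.Helper68.DS Finset

/-- `1` if `i` is selected, for the set `T` of labels and `e` free positions. -/
def selF (T : Finset ℕ) (e i : ℕ) : ℕ :=
  if i ∉ T ∧ ((Finset.Ico 1 i).filter fun l => l ∉ T).card < min 4 (e + 2) then 1 else 0

/-- `1` if `i` is selected, for the list `S` of labels and `e` free positions. -/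
def sel (S : List ℕ) (e i : ℕ) : ℕ := if i ∉ S ∧ rk S i < min 4 (e + 2) then 1 else 0

theorem rk_eq {T : Finset ℕ} {S : List ℕ} (h : ∀ l, 1 ≤ l → (l ∈ T ↔ l ∈ S)) (i : ℕ) :
    rk S i = ((Finset.Ico 1 i).filter fun l => l ∉ T).card := by
  unfold rk
  rw [← List.toFinset_card_of_nodup (List.Nodup.filter _ List.nodup_range)]
  congr 1
  ext l
  simp only [List.toFinset_filter, List.toFinset_range, Finset.mem_filter, Finset.mem_range,
    Bool.and_eq_true, decide_eq_true_eq, Bool.not_eq_true', List.elem_eq_mem,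
    decide_eq_false_iff_not, Finset.mem_Ico]
  constructor
  · rintro ⟨h1, h2, h3⟩
    exact ⟨⟨h2, h1⟩, fun h4 => h3 ((h l h2).1 h4)⟩
  · rintro ⟨⟨h1, h2⟩, h3⟩
    exact ⟨h2, h1, fun h4 => h3 ((h l h1).2 h4)⟩

theorem selF_eq {T : Finset ℕ} {S : List ℕ} (h : ∀ l, 1 ≤ l → (l ∈ T ↔ l ∈ S)) {i : ℕ}
    (hi : 1 ≤ i) (e : ℕ) : selF T e i = sel S e i := by
  unfold selF sel
  rw [rk_eq h i]
  exact if_congr (by rw [h i hi]) rfl rfl

/-- The number of nonempty prefixes of `R` selecting `i`. -/
def NN (i : ℕ) : List ℕ → ℕ → List ℕ → ℕ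
  | _, _, [] => 0
  | S, e, x :: R => if x = 0 then sel S (e + 1) i + NN i S (e + 1) R else
      sel (x :: S) e i + NN i (x :: S) e R

theorem Ico_cons (a j : ℕ) : Finset.Ico a (a + j + 1) = insert a (Finset.Ico (a + 1) (a + j + 1)) := by
  ext x
  simp only [Finset.mem_Ico, Finset.mem_insert]
  omega

theorem blocked_cons (U : ℕ → ℕ) (a j : ℕ) :
    blocked U a (a + j + 1) = insert (U a) (blocked U (a + 1) (a + j + 1)) := by
  unfold blocked
  rw [← Finset.image_insert, ← Ico_cons]

theorem freeCount_cons (U : ℕ → ℕ) (a j : ℕ) : freeCount U a (a + j + 1) =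
    (if U a = 0 then 1 else 0) + freeCount U (a + 1) (a + j + 1) := by
  unfold freeCount
  rw [Ico_cons, Finset.filter_insert]
  split_ifs with h
  · rw [Finset.card_insert_of_notMem, add_comm]
    simp
  · rw [zero_add]

theorem sum_NN {i : ℕ} (hi : 1 ≤ i) (U : ℕ → ℕ) (R : List ℕ) : ∀ (T : Finset ℕ) (S : List ℕ)
    (e a : ℕ), (∀ l, 1 ≤ l → (l ∈ T ↔ l ∈ S)) → (∀ j < R.length, U (a + j) = R.getD j 0) →
    ∑ j ∈ range R.length, selF (T ∪ blocked U a (a + j + 1)) (e + freeCount U a (a + j + 1)) i =
      NN i S e R := by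
  induction R with
  | nil => intro T S e a _ _; rfl
  | cons x R ih =>
    intro T S e a hTS hU
    have h0 : U a = x := by simpa using hU 0 (by simp)
    have hU' : ∀ j < R.length, U (a + 1 + j) = R.getD j 0 := by
      intro j hj
      have := hU (j + 1) (by simpa using hj)
      rw [show a + 1 + j = a + (j + 1) by ring, this]
      rfl
    rw [List.length_cons, Finset.sum_range_succ']
    have h1 : ∀ j, T ∪ blocked U a (a + (j + 1) + 1) =
        (insert x T) ∪ blocked U (a + 1) (a + 1 + j + 1) := by
      intro j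
      rw [blocked_cons U a (j + 1), h0, show a + (j + 1) + 1 = a + 1 + j + 1 by ring]
      ext l
      simp only [Finset.mem_union, Finset.mem_insert]
      tauto
    have h2 : ∀ j, e + freeCount U a (a + (j + 1) + 1) =
        (e + if x = 0 then 1 else 0) + freeCount U (a + 1) (a + 1 + j + 1) := by
      intro j
      rw [freeCount_cons U a (j + 1), h0, show a + (j + 1) + 1 = a + 1 + j + 1 by ring]
      ring
    have h3 : T ∪ blocked U a (a + 0 + 1) = insert x T := by
      rw [blocked_cons U a 0, h0]
      unfold blocked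
      ext l
      simp only [Finset.mem_union, Finset.mem_insert]
      simp
      tauto
    have h4 : e + freeCount U a (a + 0 + 1) = e + if x = 0 then 1 else 0 := by
      rw [freeCount_cons U a 0, h0]
      unfold freeCount
      simp
    rw [h3, h4]
    have h5 : ∑ j ∈ range R.length, selF (T ∪ blocked U a (a + (j + 1) + 1))
        (e + freeCount U a (a + (j + 1) + 1)) i = ∑ j ∈ range R.length,
        selF ((insert x T) ∪ blocked U (a + 1) (a + 1 + j + 1))
        ((e + if x = 0 then 1 else 0) + freeCount U (a + 1) (a + 1 + j + 1)) i :=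
      Finset.sum_congr rfl fun j _ => by rw [h1, h2]
    rw [h5]
    unfold NN
    by_cases hx : x = 0
    · have hT : ∀ l, 1 ≤ l → (l ∈ insert x T ↔ l ∈ S) := by
        intro l hl
        rw [Finset.mem_insert, ← hTS l hl]
        constructor
        · rintro (h | h)
          · omega
          · exact h
        · exact fun h => Or.inr h
      rw [if_pos hx, if_pos hx, ih (insert x T) S (e + 1) (a + 1) hT hU', selF_eq hT hi, add_comm]
    · have hT : ∀ l, 1 ≤ l → (l ∈ insert x T ↔ l ∈ x :: S) := by
        intro l hl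
        rw [Finset.mem_insert, List.mem_cons, hTS l hl]
      rw [if_neg hx, if_neg hx, ih (insert x T) (x :: S) (e + 0) (a + 1) hT hU', selF_eq hT hi,
        add_comm]
      rfl

/-- The number of windows of the list `u` selecting `i`. -/
def FF (i : ℕ) : List ℕ → ℕ
  | [] => 0
  | _ :: v => sel [] 0 i + NN i [] 0 v + FF i v

theorem FF_eq (i : ℕ) (u : List ℕ) :
    ∑ a ∈ range u.length, (sel [] 0 i + NN i [] 0 (u.drop (a + 1))) = FF i u := by
  induction u with
  | nil => rfl
  | cons x v ih =>
    rw [List.length_cons, Finset.sum_range_succ', FF, ← ih]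
    simp only [List.drop_succ_cons, List.drop_zero]
    ring

theorem cnt_eq {i : ℕ} (hi : 1 ≤ i) (u : List ℕ) (U : ℕ → ℕ) (hU : ∀ m, U m = u.getD (m + 1) 0) :
    cnt (inJ U) u.length i = FF i u := by
  classical
  rw [← FF_eq]
  unfold cnt
  rw [Finset.card_filter, Finset.sum_product]
  refine Finset.sum_congr rfl fun a ha => ?_
  rw [Finset.mem_range] at ha
  obtain ⟨k, hk⟩ := Nat.exists_eq_add_of_lt ha
  rw [show range u.length = range (a + (k + 1)) by rw [hk]; rfl, Finset.sum_range_add]
  have h1 : ∀ (b : ℕ) (inst : Decidable (a ≤ b ∧ inJ U a b i)), b ∈ range a →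
      @ite ℕ _ inst 1 0 = 0 := by
    intro b inst hb
    rw [Finset.mem_range] at hb
    exact if_neg (by omega)
  have h2 : ∀ (b : ℕ) (inst : Decidable (a ≤ a + b ∧ inJ U a (a + b) i)),
      @ite ℕ _ inst 1 0 = selF (blocked U a (a + b)) (freeCount U a (a + b)) i := by
    intro b inst
    unfold selF
    refine if_congr ?_ rfl rfl
    unfold inJ
    constructor
    · rintro ⟨_, _, h3, h4⟩
      exact ⟨h3, h4⟩
    · rintro ⟨h3, h4⟩
      exact ⟨by omega, hi, h3, h4⟩
  dsimp only
  refine Eq.trans (congrArg₂ (· + ·) (Finset.sum_eq_zero fun b hb => h1 b _ hb)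
    (Finset.sum_congr rfl fun b _ => h2 b _)) ?_
  rw [zero_add, Finset.sum_range_succ']
  have hlen : (u.drop (a + 1)).length = k := by
    rw [List.length_drop, hk]
    omega
  have h3 := sum_NN hi U (u.drop (a + 1)) ∅ [] 0 a (by simp) (by
    intro j hj
    rw [hU, List.getD_eq_getElem?_getD, List.getD_eq_getElem?_getD, List.getElem?_drop]
    congr 2
    ring)
  rw [hlen] at h3
  simp only [Finset.empty_union, zero_add] at h3
  rw [← h3, add_comm]
  congr 1
  have h4 : blocked U a (a + 0) = ∅ := by simp [blocked]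
  have h5 : freeCount U a (a + 0) = 0 := by simp [freeCount]
  rw [h4, h5]
  exact selF_eq (by simp) hi 0

theorem NN_rep (i : ℕ) (α : ℕ) (R : List ℕ) : ∀ (S : List ℕ) (e : ℕ),
    NN i S e (List.replicate α 0 ++ R) = ∑ m ∈ range α, sel S (e + (m + 1)) i +
      NN i S (e + α) R := by
  induction α with
  | zero => intro S e; simp
  | succ α ih =>
    intro S e
    rw [List.replicate_succ, List.cons_append, NN, if_pos rfl, ih, Finset.sum_range_succ']
    have h1 : ∀ m, e + 1 + (m + 1) = e + (m + 1 + 1) := fun m => by ring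
    simp only [h1]
    rw [show e + 1 + α = e + (α + 1) by ring, zero_add]
    ring

theorem FF_block (i l : ℕ) (R : List ℕ) (p : ℕ) : FF i (l :: (List.replicate p 0 ++ R)) =
    ∑ α ∈ range (p + 1), (∑ m ∈ range (α + 1), sel [] m i + NN i [] α R) + FF i R := by
  induction p generalizing l with
  | zero =>
    rw [List.replicate_zero, List.nil_append, FF]
    simp
  | succ p ih =>
    rw [FF, List.replicate_succ, List.cons_append, ih, Finset.sum_range_succ _ (p + 1)]
    have h1 : (0 :: (List.replicate p 0 ++ R)) = List.replicate (p + 1) 0 ++ R := by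
      rw [List.replicate_succ, List.cons_append]
    rw [h1, NN_rep, Finset.sum_range_succ' _ (p + 1)]
    simp only [zero_add]
    ring

theorem sum_lt (d c n : ℕ) : ∑ β ∈ range n, (if β + c < d then 1 else 0) = min n (d - c) := by
  induction n with
  | zero => simp
  | succ n ih =>
    rw [Finset.sum_range_succ, ih]
    split_ifs <;> omega

theorem sum_ge (d e L L' : ℕ) : ∑ α ∈ range L, ∑ β ∈ range L', (if d ≤ β + (α + e) then 1 else 0) =
    L * L' - ∑ α ∈ range L, min L' (d - (α + e)) := by
  have h1 : ∑ α ∈ range L, ∑ β ∈ range L', (if d ≤ β + (α + e) then 1 else 0) +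
      ∑ α ∈ range L, min L' (d - (α + e)) = L * L' := by
    rw [← Finset.sum_add_distrib]
    have h2 : ∀ α ∈ range L, ∑ β ∈ range L', (if d ≤ β + (α + e) then 1 else 0) +
        min L' (d - (α + e)) = L' := by
      intro α _
      rw [← sum_lt, ← Finset.sum_add_distrib]
      rw [Finset.sum_congr rfl (g := fun _ => 1) fun β _ => by split_ifs <;> omega]
      simp
    rw [Finset.sum_congr rfl h2]
    simp
  omega

theorem sum_min1 (e p q : ℕ) : ∑ α ∈ range (p + 1), min (q + 1) (1 - (α + e)) =
    if e = 0 then 1 else 0 := by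
  rw [Finset.sum_range_succ', Finset.sum_eq_zero]
  · split_ifs <;> omega
  · intro α _
    omega

theorem sum_min2 (e p q : ℕ) : ∑ α ∈ range (p + 1), min (q + 1) (2 - (α + e)) =
    if e = 0 then 1 + (if 2 ≤ p + 1 then 1 else 0) + (if 2 ≤ q + 1 then 1 else 0) else
      if e = 1 then 1 else 0 := by
  rw [Finset.sum_range_succ']
  rcases p with _ | p
  · rw [Finset.sum_range_zero]
    split_ifs <;> omega
  · rw [Finset.sum_range_succ', Finset.sum_eq_zero]
    · split_ifs <;> omega
    · intro α _
      omega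

theorem crossOne_eq (S : List ℕ) (L L' e i : ℕ) (hL : 1 ≤ L) (hL' : 1 ≤ L') :
    ∑ α ∈ range L, ∑ β ∈ range L', sel S (β + (α + e)) i = crossOne S L L' e i := by
  unfold crossOne
  rw [List.elem_eq_mem]
  by_cases h : i ∈ S
  · rw [if_pos (by simpa using h)]
    refine Finset.sum_eq_zero fun α _ => Finset.sum_eq_zero fun β _ => ?_
    unfold sel
    rw [if_neg (fun h' => h'.1 h)]
  · rw [if_neg (by simpa using h)]
    obtain ⟨p, rfl⟩ : ∃ p, L = p + 1 := ⟨L - 1, by omega⟩
    obtain ⟨q, rfl⟩ : ∃ q, L' = q + 1 := ⟨L' - 1, by omega⟩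
    have h1 : ∀ n, sel S n i = if rk S i < min 4 (n + 2) then 1 else 0 := by
      intro n
      unfold sel
      simp [h]
    simp only [h1]
    rcases Nat.lt_or_ge (rk S i) 2 with h2 | h2
    · rw [if_pos (by omega), Finset.sum_congr rfl fun α _ => Finset.sum_congr rfl
        (g := fun _ => 1) fun β _ => if_pos (by omega)]
      simp
    rw [if_neg (by omega)]
    rcases Nat.lt_or_ge (rk S i) 3 with h3 | h3
    · rw [if_pos (by omega), ← sum_min1 e p q, ← sum_ge]
      refine Finset.sum_congr rfl fun α _ => Finset.sum_congr rfl fun β _ => ?_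
      refine if_congr ?_ rfl rfl
      omega
    rw [if_neg (by omega)]
    rcases Nat.lt_or_ge (rk S i) 4 with h4 | h4
    · rw [if_pos (by omega), ← sum_min2 e p q, ← sum_ge]
      refine Finset.sum_congr rfl fun α _ => Finset.sum_congr rfl fun β _ => ?_
      refine if_congr ?_ rfl rfl
      omega
    rw [if_neg (by omega)]
    refine Finset.sum_eq_zero fun α _ => Finset.sum_eq_zero fun β _ => if_neg ?_
    omega

theorem crossAux_eq (L i : ℕ) (hL : 1 ≤ L) (t : List (ℕ × ℕ)) (h1 : ∀ p ∈ t, 1 ≤ p.2)
    (h2 : ∀ p ∈ t, p.1 ≠ 0) : ∀ (S : List ℕ) (e : ℕ),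
    ∑ α ∈ range L, NN i S (α + e) (ulist t) = crossAux L i S e t := by
  induction t with
  | nil =>
    intro S e
    simp [ulist, NN, crossAux]
  | cons b t ih =>
    intro S e
    obtain ⟨l, L'⟩ := b
    have hL' : 1 ≤ L' := h1 (l, L') (by simp)
    have hl : l ≠ 0 := h2 (l, L') (by simp)
    rw [ulist, crossAux, ← crossOne_eq _ _ _ _ _ hL hL',
      ← ih (fun p hp => h1 p (by simp [hp])) (fun p hp => h2 p (by simp [hp])),
      ← Finset.sum_add_distrib]
    refine Finset.sum_congr rfl fun α _ => ?_
    rw [NN, if_neg hl, NN_rep]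
    obtain ⟨q, rfl⟩ : ∃ q, L' = q + 1 := ⟨L' - 1, by omega⟩
    rw [Nat.add_sub_cancel, Finset.sum_range_succ', zero_add]
    have h3 : ∀ m, α + e + (m + 1) = m + 1 + (α + e) := fun m => by ring
    simp only [h3]
    rw [show α + e + q = α + (e + q) by ring]
    ring

theorem inner_eq (L i : ℕ) (hi : 1 ≤ i) :
    ∑ α ∈ range L, ∑ m ∈ range (α + 1), sel [] m i = Pool.Agent.Helper68.DS.inner L i := by
  have h1 : ∀ m, sel [] m i = if i - 1 < min 4 (m + 2) then 1 else 0 := by
    intro m
    unfold sel
    rw [rk_eq (T := ∅) (S := []) (by simp)]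
    simp
  simp only [h1]
  have h2 : ∀ n c, ∑ m ∈ range n, (if c ≤ m then 1 else 0) = n - c := by
    intro n c
    induction n with
    | zero => simp
    | succ n ih =>
      rw [Finset.sum_range_succ, ih]
      split_ifs <;> omega
  have h3 : ∀ L c, ∑ α ∈ range L, (α + 1 - c) = (L + 1 - c) * (L - c) / 2 := by
    intro L c
    have : 2 * ∑ α ∈ range L, (α + 1 - c) = (L + 1 - c) * (L - c) := by
      induction L with
      | zero => simp
      | succ L ih =>
        rw [Finset.sum_range_succ, mul_add, ih]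
        rcases Nat.lt_or_ge L c with h | h
        · have h5 : L + 1 - c = 0 := by omega
          have h6 : L - c = 0 := by omega
          simp [h5, h6]
        · obtain ⟨x, rfl⟩ := Nat.exists_eq_add_of_le h
          have h5 : c + x + 1 - c = x + 1 := by omega
          have h6 : c + x - c = x := by omega
          have h7 : c + x + 1 + 1 - c = x + 2 := by omega
          rw [h5, h6, h7]
          ring
    omega
  unfold Pool.Agent.Helper68.DS.inner
  rcases (show i = 1 ∨ i = 2 ∨ i = 3 ∨ i = 4 ∨ 5 ≤ i by omega) with rfl | rfl | rfl | rfl | h5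
  · rw [if_pos (by simp)]
    have := h3 L 0
    simp only [Nat.sub_zero] at this
    rw [mul_comm L, ← this]
    refine Finset.sum_congr rfl fun α _ => ?_
    rw [Finset.sum_congr rfl (g := fun _ => 1) fun m _ => if_pos (by omega)]
    simp
  · rw [if_pos (by simp)]
    have := h3 L 0
    simp only [Nat.sub_zero] at this
    rw [mul_comm L, ← this]
    refine Finset.sum_congr rfl fun α _ => ?_
    rw [Finset.sum_congr rfl (g := fun _ => 1) fun m _ => if_pos (by omega)]
    simp
  · rw [if_neg (by simp), if_pos rfl]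
    have := h3 L 1
    simp only [Nat.add_sub_cancel] at this
    rw [← this]
    refine Finset.sum_congr rfl fun α _ => ?_
    rw [Finset.sum_congr rfl (g := fun m => if 1 ≤ m then 1 else 0) fun m _ =>
      if_congr (by omega) rfl rfl, h2]
    simp
  · rw [if_neg (by simp), if_neg (by simp), if_pos rfl]
    have := h3 L 2
    rw [show L + 1 - 2 = L - 1 by omega] at this
    rw [← this]
    refine Finset.sum_congr rfl fun α _ => ?_
    rw [Finset.sum_congr rfl (g := fun m => if 2 ≤ m then 1 else 0) fun m _ =>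
      if_congr (by omega) rfl rfl, h2]
  · rw [if_neg (by omega), if_neg (by omega), if_neg (by omega)]
    refine Finset.sum_eq_zero fun α _ => Finset.sum_eq_zero fun β _ => if_neg ?_
    omega

theorem BLOCK : BLOCK_stmt := by
  intro bl hne h1 h2 i hi
  have hlen : ∀ bl : List (ℕ × ℕ), (∀ p ∈ bl, 1 ≤ p.2) → (ulist bl).length = total bl := by
    intro bl
    induction bl with
    | nil => intro _; rfl
    | cons b t ih =>
      intro h
      obtain ⟨l, L⟩ := b
      have hL : 1 ≤ L := h (l, L) (by simp)
      rw [ulist, List.length_cons, List.length_append, List.length_replicate,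
        ih fun p hp => h p (by simp [hp])]
      unfold total
      rw [List.map_cons, List.sum_cons]
      dsimp only
      omega
  rw [← hlen bl h1, cnt_eq hi (ulist bl) (Uof bl) fun m => rfl]
  have key : ∀ bl : List (ℕ × ℕ), (∀ p ∈ bl, 1 ≤ p.2) → (∀ p ∈ bl.tail, p.1 ≠ 0) →
      FF i (ulist bl) = gcount bl i := by
    intro bl
    induction bl with
    | nil => intro _ _; rfl
    | cons b t ih =>
      intro h1 h2
      obtain ⟨l, L⟩ := b
      have hL : 1 ≤ L := h1 (l, L) (by simp)
      have h1' : ∀ p ∈ t, 1 ≤ p.2 := fun p hp => h1 p (by simp [hp])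
      have h2' : ∀ p ∈ t, p.1 ≠ 0 := fun p hp => h2 p (by simpa using hp)
      rw [gcount, ulist, FF_block, ih h1' fun p hp => h2' p (List.mem_of_mem_tail hp),
        Nat.sub_add_cancel hL, Finset.sum_add_distrib, inner_eq L i hi]
      have h3 := crossAux_eq L i hL t h1' h2' [] 0
      simp only [add_zero] at h3
      rw [h3]
  exact key bl h1 h2

end Pool.Agent.Helper19.DS
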